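import Pool.Agent.H37.KR.Main
import Pool.Agent.H37.KR.P3
import Pool.Agent.H37.KR.P5m
import Pool.Agent.H83.KR.P1
import Pool.Agent.H83.KR.P2
import Pool.Agent.H55.KR.Sym
import Pool.Agent.H36.KR.Heawood
import Pool.Agent.H36.KR.Torus
import Pool.Agent.H67.KR.Mid
import Pool.Graph.R_seed8.Y131.KS.Alm

/-!
# The Kalai-Sarkaria theorem with an intersection form

Let `L` be a simplicial complex with vertices `0, ..., n-1`, `1 ≤ d`, `d + 1 ≤ n`. Assume that on the
symmetric cycles of the deleted join of `L` the mod `2` obstruction to an odd map to `S^(d-1)` is a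
sum of `m` products `β_j × α_j` of cocycles of `L`. Then the faces of the symmetric shifting `L^s`
which are not in the shifting of the boundary complex of the cyclic `d`-polytope come from few
exceptional faces: for every `r > d/2` at most `binomial d r * (number of factors of size r)` of them
have size `r` and lie in `{0, ..., n+r-d-2}`, and every face of `L^s` outside contains one of these.
With `m = 0`, which holds for complexes which (almost) embed in `S^(d-1)`, there are none: this is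
the Kalai-Sarkaria theorem. If `L` is a
subcomplex of a closed connected mod `2` homology manifold `K` of dimension `d - 1` which (almost)
embeds in `S^d` (for example an orientable surface, or a product of spheres) then the hypothesis
holds, and for every `r > d/2` the number of factors of size `r` is at most the dimension of the
reduced homology `H_(r-1)(K; F_2)` and at most that of `H_(d-r)(K; F_2)`. For the torus with seven
vertices (`d = 3`, one product of cocycles on edges) there are exactly `6 = 3 * 2` exceptional edges.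

The vertex `i` of the problem is our vertex `i - 1`, everywhere.
-/

set_option autoImplicit false

namespace Pool.Agent.Results.MP_dd083e_co.IntersectionForm

open Finset MvPolynomial

/-- simplicial complex with vertices among `0, ..., n-1`: a family of finsets containing the
empty set and closed under taking subsets -/
def IsComplex {n : ℕ} (L : Finset (Finset (Fin n))) : Prop :=
  ∅ ∈ L ∧ ∀ σ ∈ L, ∀ τ : Finset (Fin n), τ ⊆ σ → τ ∈ L

/-- the geometric realization, in barycentric coordinates -/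
def realization {n : ℕ} (L : Finset (Finset (Fin n))) : Set (Fin n → ℝ) :=
  {x | (∀ i, 0 ≤ x i) ∧ ∑ i, x i = 1 ∧ ∃ σ ∈ L, ∀ i, i ∉ σ → x i = 0}

/-- topologically embeddable in the sphere `S^(d-1)`, the unit sphere of `ℝ^d` -/
def EmbedsInSphere {n : ℕ} (L : Finset (Finset (Fin n))) (d : ℕ) : Prop :=
  ∃ f : realization L → Metric.sphere (0 : EuclideanSpace ℝ (Fin d)) 1, Topology.IsEmbedding f

open Classical in
/-- the boundary complex of the cyclic `d`-polytope with the `n` vertices `(i, i^2, ..., i^d)`,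
`i < n`: the proper subsets `S` which are the set of all vertices on a supporting hyperplane -/
noncomputable def cyclicBoundary (n d : ℕ) : Finset (Finset (Fin n)) :=
  univ.filter (fun S => S ≠ univ ∧ ∃ a : Fin d → ℝ, ∃ c : ℝ,
    (∀ i ∈ S, ∑ j : Fin d, a j * ((i : ℕ) : ℝ) ^ ((j : ℕ) + 1) = c) ∧
    (∀ i : Fin n, i ∉ S → ∑ j : Fin d, a j * ((i : ℕ) : ℝ) ^ ((j : ℕ) + 1) < c))

/-- the Stanley-Reisner ideal, generated by the squarefree monomials of the non-faces -/
noncomputable def srIdeal {n : ℕ} (k : Type*) [Field k] (L : Finset (Finset (Fin n))) :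
    Ideal (MvPolynomial (Fin n) k) :=
  Ideal.span {p | ∃ σ : Finset (Fin n), σ ∉ L ∧ p = ∏ v ∈ σ, X v}

/-- degree reverse lexicographic order with `x_0 > x_1 > ...`: `RevLT m m'` means `m < m'` -/
def RevLT {n : ℕ} (m m' : Fin n →₀ ℕ) : Prop :=
  m.degree < m'.degree ∨ (m.degree = m'.degree ∧ ∃ j, m' j < m j ∧ ∀ i, j < i → m i = m' i)

/-- the monomials of the initial ideal of the ideal `J`: the leading monomials of its elements -/
def inSet {n : ℕ} {k : Type*} [Field k] (J : Ideal (MvPolynomial (Fin n) k)) :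
    Set (Fin n →₀ ℕ) :=
  {m | ∃ f ∈ J, coeff m f ≠ 0 ∧ ∀ m' ∈ f.support, m' ≠ m → RevLT m' m}

/-- the linear substitution `x_i ↦ ∑_j g_ij x_j` -/
noncomputable def linSubst {n : ℕ} {k : Type*} [Field k] (g : Fin n × Fin n → k) :
    MvPolynomial (Fin n) k →ₐ[k] MvPolynomial (Fin n) k :=
  aeval (fun i => ∑ v, C (g (i, v)) * X v)

/-- the ideal `I` written in the coordinates `y_i = ∑_j g_ij x_j`: all `f` with `f(y) ∈ I`. For
invertible `g` it is the image of `I` under the substitution with the inverse matrix, see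
`coordIdeal_eq_map` below -/
noncomputable def coordIdeal {n : ℕ} {k : Type*} [Field k] (g : Fin n × Fin n → k)
    (I : Ideal (MvPolynomial (Fin n) k)) : Ideal (MvPolynomial (Fin n) k) :=
  I.comap (linSubst g)

/-- the monomials of the generic initial ideal: those in the initial ideal of `I` written in the
coordinates given by `g`, for all invertible `g` outside some proper hypersurface -/
def ginSet {n : ℕ} {k : Type*} [Field k] (I : Ideal (MvPolynomial (Fin n) k)) :
    Set (Fin n →₀ ℕ) :=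
  {m | ∃ F : MvPolynomial (Fin n × Fin n) k, F ≠ 0 ∧ ∀ g : Fin n × Fin n → k,
    (Matrix.of (fun i j => g (i, j))).det ≠ 0 → eval g F ≠ 0 → m ∈ inSet (coordIdeal g I)}

/-- the list of the indices of the variables of `m`, with multiplicity, in increasing order -/
noncomputable def idxList {n : ℕ} (m : Fin n →₀ ℕ) : List ℕ :=
  (Multiset.map (fun i : Fin n => (i : ℕ)) (Finsupp.toMultiset m)).sort (· ≤ ·)

/-- `φ(m)`: the `i`-th index (counted from `0`, in increasing order) is increased by `i` -/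
noncomputable def phi {n : ℕ} (m : Fin n →₀ ℕ) : Finset ℕ :=
  univ.image (fun i : Fin (idxList m).length => (idxList m).get i + (i : ℕ))

/-- the symmetric algebraic shifting `K^s` of `K` over `k` (vertices `0, ..., n-1`) -/
def shift {n : ℕ} (k : Type*) [Field k] (K : Finset (Finset (Fin n))) : Set (Finset ℕ) :=
  {S | ∃ m : Fin n →₀ ℕ, m ∉ ginSet (srIdeal k K) ∧ (∀ x ∈ phi m, x < n) ∧ S = phi m}

/-! ### the obstruction -/

/-- elements of `U` of even rank (the smallest element has rank `0`) -/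
def evens {n : ℕ} (U : Finset (Fin n)) : Finset (Fin n) :=
  U.filter (fun u => Even (U.filter (fun w => w < u)).card)

/-- elements of `U` of odd rank -/
def odds {n : ℕ} (U : Finset (Fin n)) : Finset (Fin n) :=
  U.filter (fun u => ¬ Even (U.filter (fun w => w < u)).card)

/-- `L` almost embeds in `S^(d-1)`: there is a continuous map such that points of disjoint faces
have different images -/
def AlmostEmbeds {n : ℕ} (L : Finset (Finset (Fin n))) (d : ℕ) : Prop :=
  ∃ f : realization L → Metric.sphere (0 : EuclideanSpace ℝ (Fin d)) 1, Continuous f ∧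
    ∀ x y : realization L, (∀ i, (x : Fin n → ℝ) i = 0 ∨ (y : Fin n → ℝ) i = 0) → f x ≠ f y

/-- `γ` is a cochain of `L` modulo `2` on sets of size `s`, and a cocycle: the sum of its values
over the facets of every face with `s + 1` vertices is zero -/
def Cocycle {n : ℕ} (L : Finset (Finset (Fin n))) (s : ℕ) (γ : Finset (Fin n) → ZMod 2) : Prop :=
  (∀ σ, σ.card ≠ s → γ σ = 0) ∧ ∀ ρ ∈ L, ρ.card = s + 1 → ∑ v ∈ ρ, γ (ρ.erase v) = 0

/-- symmetric cycles of the deleted join. The simplices of the deleted join of `L` are the pairs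
`(σ, τ)` of disjoint faces; `Z` is a chain of dimension `d` (only its values at pairs with `d + 1`
vertices matter) with coefficients modulo `2`, symmetric under the exchange of `σ` and `τ`, and its
boundary is zero -/
def SymmetricCycle {n : ℕ} (L : Finset (Finset (Fin n))) (d : ℕ)
    (Z : Finset (Fin n) → Finset (Fin n) → ZMod 2) : Prop :=
  (∀ σ τ, Z σ τ = Z τ σ) ∧ (∀ σ τ, Z σ τ ≠ 0 → σ ∈ L ∧ τ ∈ L) ∧
    ∀ ρ τ : Finset (Fin n), Disjoint ρ τ → ρ.card + τ.card = d →
      ∑ v ∈ (ρ ∪ τ)ᶜ, (Z (insert v ρ) τ + Z ρ (insert v τ)) = 0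

/-- On the symmetric cycles `Z` the obstruction (the sum of the values of `Z` at the alternating
simplices, i.e. the `d`-th power of the class of the double covering evaluated at `Z / (ℤ/2)`) is
the sum of the values of the products `β_j × α_j`, where `β_j` and `α_j` are cocycles of `L` on sets
of sizes `b_j` and `d + 1 - b_j`, with `d + 1 - b_j ≤ b_j ≤ d + 1` -/
def SumOfProducts {n : ℕ} (L : Finset (Finset (Fin n))) (d : ℕ) {m : ℕ} (b : Fin m → ℕ)
    (β α : Fin m → Finset (Fin n) → ZMod 2) : Prop :=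
  (∀ j, d + 1 ≤ 2 * b j ∧ b j ≤ d + 1) ∧
    (∀ j, Cocycle L (b j) (β j) ∧ Cocycle L (d + 1 - b j) (α j)) ∧
    ∀ Z, SymmetricCycle L d Z →
      ∑ U ∈ powersetCard (d + 1) univ, Z (evens U) (odds U) =
        ∑ j, ∑ σ, ∑ τ, if Disjoint σ τ then β j σ * α j τ * Z σ τ else 0

/-- the number of the cocycles `β_j`, `α_j` on sets of size `r` -/
def factors (d : ℕ) {m : ℕ} (b : Fin m → ℕ) (r : ℕ) : ℕ :=
  (univ.filter (fun j => b j = r)).card + (univ.filter (fun j => d + 1 - b j = r)).card

/-- the exceptional faces of size `r`: faces of `L^s`, not in the shifting of the boundary complex of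
the cyclic polytope, with all elements less than `n + r - d - 1` -/
def exceptional {n : ℕ} (k : Type*) [Field k] (L : Finset (Finset (Fin n))) (d r : ℕ) :
    Set (Finset ℕ) :=
  {S | S ∈ shift k L ∧ S ∉ shift k (cyclicBoundary n d) ∧ S.card = r ∧
    ∀ x ∈ S, x + d + 1 < n + r}

/-! ### subcomplexes of manifolds -/

/-- the chain `c`, with coefficients modulo `2`, is supported on the faces of `K` with `j`
vertices -/
def SupportedOn {N : ℕ} (K : Finset (Finset (Fin N))) (j : ℕ) (c : Finset (Fin N) → ZMod 2) :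
    Prop :=
  ∀ σ, c σ ≠ 0 → σ ∈ K ∧ σ.card = j

/-- the boundary of a chain (the augmentation is included: the empty face has dimension `-1`) -/
def boundary {N : ℕ} (c : Finset (Fin N) → ZMod 2) (ρ : Finset (Fin N)) : ZMod 2 :=
  ∑ v ∈ ρᶜ, c (insert v ρ)

/-- the reduced mod `2` homology of `K` vanishes in dimension `j - 1` -/
def AcyclicAt {N : ℕ} (K : Finset (Finset (Fin N))) (j : ℕ) : Prop :=
  ∀ c : Finset (Fin N) → ZMod 2, SupportedOn K j c → (∀ ρ, boundary c ρ = 0) →
    ∃ b, SupportedOn K (j + 1) b ∧ ∀ ρ, c ρ = boundary b ρ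

/-- the link of the face `σ` -/
def link {N : ℕ} (K : Finset (Finset (Fin N))) (σ : Finset (Fin N)) : Finset (Finset (Fin N)) :=
  univ.filter (fun τ => Disjoint τ σ ∧ τ ∪ σ ∈ K)

/-- mod `2` homology spheres of dimension `d - 1`: the link of every face `σ` (also of the empty
face) has the reduced mod `2` homology of a sphere of dimension `d - 1 - |σ|` -/
def IsHomologySphere {N : ℕ} (K : Finset (Finset (Fin N))) (d : ℕ) : Prop :=
  IsComplex K ∧ (∀ σ ∈ K, σ.card ≤ d) ∧
    (∀ σ ∈ K, ∀ j, j + σ.card ≠ d → AcyclicAt (link K σ) j) ∧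
    ∀ σ ∈ K, ∃ z : Finset (Fin N) → ZMod 2, z ≠ 0 ∧ SupportedOn (link K σ) (d - σ.card) z ∧
      (∀ ρ, boundary z ρ = 0) ∧
      ∀ z', SupportedOn (link K σ) (d - σ.card) z' → (∀ ρ, boundary z' ρ = 0) → z' = 0 ∨ z' = z

/-- closed connected mod `2` homology manifolds of dimension `d - 1 ≥ 1`: the links of the vertices
are mod `2` homology spheres of dimension `d - 2`, and there is exactly one nonzero cycle of
dimension `d - 1` modulo `2` (so `K` is connected) -/
def IsHomologyManifold {N : ℕ} (K : Finset (Finset (Fin N))) (d : ℕ) : Prop :=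
  IsComplex K ∧ 2 ≤ d ∧ (∀ σ ∈ K, σ.card ≤ d) ∧
    (∀ v, {v} ∈ K → IsHomologySphere (link K {v}) (d - 1)) ∧
    ∃ z : Finset (Fin N) → ZMod 2, z ≠ 0 ∧ SupportedOn K d z ∧ (∀ ρ, boundary z ρ = 0) ∧
      ∀ z', SupportedOn K d z' → (∀ ρ, boundary z' ρ = 0) → z' = 0 ∨ z' = z

/-- the dimension of the reduced homology `H_(s-1)(K; F_2)`: the dimension of the space of the
cycles on the faces with `s` vertices minus the dimension of the space of the boundaries -/
noncomputable def betti {N : ℕ} (K : Finset (Finset (Fin N))) (s : ℕ) : ℕ :=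
  Module.finrank (ZMod 2) (Submodule.span (ZMod 2)
      {c : Finset (Fin N) → ZMod 2 | SupportedOn K s c ∧ ∀ ρ, boundary c ρ = 0}) -
    Module.finrank (ZMod 2) (Submodule.span (ZMod 2)
      {c : Finset (Fin N) → ZMod 2 | ∃ b, SupportedOn K (s + 1) b ∧ ∀ ρ, c ρ = boundary b ρ})

/-- the triangulation of the torus with seven vertices: the faces of the triangles
`{i, i + 1, i + 3}`, `{i, i + 2, i + 3}` modulo seven -/
def torus7 : Finset (Finset (Fin 7)) :=
  univ.filter (fun σ => ∃ i : Fin 7, σ ⊆ {i, i + 1, i + 3} ∨ σ ⊆ {i, i + 2, i + 3})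

theorem pr2_eq {n : ℕ} {L : Finset (Finset (Fin n))} {d m : ℕ} {b : Fin m → ℕ}
    {β α : Fin m → Finset (Fin n) → ZMod 2} (hb : ∀ j, b j ≤ d + 1)
    (h : ∀ j, Cocycle L (b j) (β j) ∧ Cocycle L (d + 1 - b j) (α j))
    (Z : Finset (Fin n) → Finset (Fin n) → ZMod 2) :
    H37.KR.pr2 (d + 1) (fun σ τ => ∑ j, β j σ * α j τ) Z =
      ∑ j, ∑ σ, ∑ τ, if Disjoint σ τ then β j σ * α j τ * Z σ τ else 0 := by
  unfold H37.KR.pr2
  rw [sum_comm]
  conv_rhs => rw [sum_comm]
  rw [sum_comm]
  refine sum_congr rfl fun σ _ => ?_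
  rw [sum_comm]
  refine sum_congr rfl fun τ _ => ?_
  by_cases hd : Disjoint σ τ
  · by_cases hc : σ.card + τ.card = d + 1
    · rw [if_pos ⟨hd, hc⟩, sum_mul]
      exact sum_congr rfl fun j _ => by rw [if_pos hd]
    · rw [if_neg (fun hh => hc hh.2)]
      symm
      refine sum_eq_zero fun j _ => ?_
      rw [if_pos hd]
      by_cases h1 : σ.card = b j
      · have h2 : τ.card ≠ d + 1 - b j := by
          have := hb j
          omega
        rw [(h j).2.1 τ h2, mul_zero, zero_mul]
      · rw [(h j).1.1 σ h1, zero_mul, zero_mul]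
  · rw [if_neg (fun hh => hd hh.1)]
    symm
    exact sum_eq_zero fun j _ => by rw [if_neg hd]

theorem hyp_of {n : ℕ} {L : Finset (Finset (Fin n))} {d m : ℕ} {b : Fin m → ℕ}
    {β α : Fin m → Finset (Fin n) → ZMod 2} (h : SumOfProducts L d b β α) :
    H37.KR.Hyp L d b β α := by
  refine ⟨h.1, fun j => (h.2.1 j).1, fun j => (h.2.1 j).2, ?_⟩
  intro Z h1 h2 h3
  rw [pr2_eq (fun j => (h.1 j).2) h.2.1 Z]
  exact h.2.2 Z ⟨h1, h2, fun ρ τ a c => h3 ρ τ a (by omega)⟩

theorem almost_of {n : ℕ} {L : Finset (Finset (Fin n))} {d : ℕ} (h : EmbedsInSphere L d) :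
    AlmostEmbeds L d := by
  obtain ⟨f, hf⟩ := h
  refine ⟨f, hf.continuous, ?_⟩
  intro x y hxy hfe
  have e := hf.injective hfe
  subst e
  have h0 : ∀ i, (x : Fin n → ℝ) i = 0 := fun i => (hxy i).elim id id
  have h1 := x.2.2.1
  rw [sum_eq_zero (fun i _ => h0 i)] at h1
  exact zero_ne_one h1

theorem zero_of_almost {n : ℕ} {L : Finset (Finset (Fin n))} {d : ℕ} (hL : IsComplex L)
    (h : AlmostEmbeds L d) (b : Fin 0 → ℕ) (β α : Fin 0 → Finset (Fin n) → ZMod 2) :
    SumOfProducts L d b β α := by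
  classical
  obtain ⟨f, hf, hi⟩ := h
  have ho := Y131.KS.odd_of_coneEmb (L := L) (d := d) hL (Y131.KS.cone_of_almost L
      (fun x => if hx : x ∈ realization L then (f ⟨x, hx⟩ : EuclideanSpace ℝ (Fin d)) else 0)
      (by
        rw [continuousOn_iff_continuous_domRestrict]
        have h0 : Continuous (fun x : realization L => (f x : EuclideanSpace ℝ (Fin d))) :=
          continuous_subtype_val.comp hf
        refine h0.congr ?_
        intro x
        have hx : (x : Fin n → ℝ) ∈ realization L := x.2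
        show (f x : EuclideanSpace ℝ (Fin d)) = if hx : (x : Fin n → ℝ) ∈ realization L then
          (f ⟨(x : Fin n → ℝ), hx⟩ : EuclideanSpace ℝ (Fin d)) else 0
        rw [dif_pos hx])
      (by
        intro x hx
        have hx' : x ∈ realization L := hx
        rw [dif_pos hx']
        exact mem_sphere_zero_iff_norm.1 (f ⟨x, hx'⟩).2)
      (by
        intro x hx y hy hxy he
        have hx' : x ∈ realization L := hx
        have hy' : y ∈ realization L := hy
        rw [dif_pos hx', dif_pos hy'] at he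
        exact hi ⟨x, hx'⟩ ⟨y, hy'⟩ hxy (Subtype.ext he)))
  have hV := Y131.KS.vk2_of_odd (L := L) (d := d) hL ho
  refine ⟨fun j => j.elim0, fun j => j.elim0, ?_⟩
  intro Z hZ
  exact (hV Z hZ.1 hZ.2.1 (fun ρ τ a c => hZ.2.2 ρ τ a (by omega))).trans
    (Fin.sum_univ_zero _).symm

theorem betti_eq {N : ℕ} (K : Finset (Finset (Fin N))) (s : ℕ) : H37.KR.betti K s = betti K s := by
  have h1 : Submodule.span (ZMod 2)
      {c : Finset (Fin N) → ZMod 2 | SupportedOn K s c ∧ ∀ ρ, boundary c ρ = 0} =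
      H37.KR.cycS K s := Submodule.span_eq (H37.KR.cycS K s)
  have h2 : Submodule.span (ZMod 2)
      {c : Finset (Fin N) → ZMod 2 | ∃ b, SupportedOn K (s + 1) b ∧ ∀ ρ, c ρ = boundary b ρ} =
      H37.KR.bdS K s := Submodule.span_eq (H37.KR.bdS K s)
  unfold betti
  rw [h1, h2]
  rfl

theorem sum_of_hyp {n : ℕ} {L : Finset (Finset (Fin n))} {d m : ℕ} {b : Fin m → ℕ}
    {β α : Fin m → Finset (Fin n) → ZMod 2} (h : H37.KR.Hyp L d b β α) :
    SumOfProducts L d b β α := by
  refine ⟨h.1, fun j => ⟨h.2.1 j, h.2.2.1 j⟩, ?_⟩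
  intro Z hZ
  rw [← pr2_eq (fun j => (h.1 j).2) (fun j => ⟨h.2.1 j, h.2.2.1 j⟩) Z]
  exact h.2.2.2 Z hZ.1 hZ.2.1 (fun ρ τ a c => hZ.2.2 ρ τ a (by omega))

theorem odd_of_almost {n : ℕ} {L : Finset (Finset (Fin n))} {d : ℕ} (hL : IsComplex L)
    (h : AlmostEmbeds L d) : Y131.KS.OddMap L d := by
  classical
  obtain ⟨f, hf, hi⟩ := h
  refine Y131.KS.odd_of_coneEmb (L := L) (d := d) hL (Y131.KS.cone_of_almost L
      (fun x => if hx : x ∈ realization L then (f ⟨x, hx⟩ : EuclideanSpace ℝ (Fin d)) else 0)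
      ?_ ?_ ?_)
  · rw [continuousOn_iff_continuous_domRestrict]
    have h0 : Continuous (fun x : realization L => (f x : EuclideanSpace ℝ (Fin d))) :=
      continuous_subtype_val.comp hf
    refine h0.congr ?_
    intro x
    have hx : (x : Fin n → ℝ) ∈ realization L := x.2
    show (f x : EuclideanSpace ℝ (Fin d)) = if hx : (x : Fin n → ℝ) ∈ realization L then
      (f ⟨(x : Fin n → ℝ), hx⟩ : EuclideanSpace ℝ (Fin d)) else 0
    rw [dif_pos hx]
  · intro x hx
    have hx' : x ∈ realization L := hx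
    rw [dif_pos hx']
    exact mem_sphere_zero_iff_norm.1 (f ⟨x, hx'⟩).2
  · intro x hx y hy hxy he
    have hx' : x ∈ realization L := hx
    have hy' : y ∈ realization L := hy
    rw [dif_pos hx', dif_pos hy'] at he
    exact hi ⟨x, hx'⟩ ⟨y, hy'⟩ hxy (Subtype.ext he)

theorem hman_of {N : ℕ} {K : Finset (Finset (Fin N))} {d : ℕ} (h : IsHomologyManifold K d) :
    H37.KR.HMan K d :=
  ⟨h.1, h.2.1, h.2.2.1, fun v hv => ⟨(h.2.2.2.1 v hv).1, (h.2.2.2.1 v hv).2.1,
    (h.2.2.2.1 v hv).2.2.1, (h.2.2.2.1 v hv).2.2.2⟩, h.2.2.2.2⟩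

theorem manifold_case {n N : ℕ} {L : Finset (Finset (Fin n))}
    {K : Finset (Finset (Fin N))} {d : ℕ} (f : Fin n ↪ Fin N) (hK : IsHomologyManifold K d)
    (hE : AlmostEmbeds K (d + 1)) (hf : ∀ σ ∈ L, σ.map f ∈ K) :
    ∃ (m : ℕ) (b : Fin m → ℕ) (β α : Fin m → Finset (Fin n) → ZMod 2),
      SumOfProducts L d b β α ∧
        ∀ r, d < 2 * r → factors d b r ≤ min (betti K r) (betti K (d + 1 - r)) := by
  obtain ⟨m, b, β, α, h1, h2⟩ := H37.KR.man_sub H55.KR.stSym H83.KR.stP1 H83.KR.stP2
    H37.KR.stP3 N n K d L f (hman_of hK) (odd_of_almost hK.1 hE) hf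
  refine ⟨m, b, β, α, sum_of_hyp h1, fun r hr => ?_⟩
  rw [← betti_eq, ← betti_eq]
  exact h2 r hr

theorem key (k : Type) [Field k] [Infinite k] (hk : CharZero k ∨ CharP k 2) (d n : ℕ)
    (hd : 1 ≤ d) (hn : d + 1 ≤ n) (L : Finset (Finset (Fin n))) (hL : IsComplex L) :
    ∀ (m : ℕ) (b : Fin m → ℕ) (β α : Fin m → Finset (Fin n) → ZMod 2),
        SumOfProducts L d b β α →
          (∀ r, d < 2 * r → (exceptional k L d r).Finite ∧
            (exceptional k L d r).ncard ≤ Nat.choose d r * factors d b r) ∧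
          (∀ S ∈ shift k L, S ∉ shift k (cyclicBoundary n d) →
            ∃ r, d < 2 * r ∧ ∃ S' ∈ exceptional k L d r, S' ⊆ S) ∧
          ∀ t, d = 2 * t + 1 → (∀ σ : Finset (Fin n), σ.card = t + 1 → σ ∈ L) →
            Nat.choose (n - t - 2) (t + 1) ≤
              Nat.choose (2 * t + 1) (t + 1) * factors d b (t + 1) := by
  intro m b β α h
  obtain ⟨h1, h2⟩ := H37.KR.main k hk n d m L b β α hd (by omega) hL (hyp_of h)
  refine ⟨fun r hr => ⟨?_, h1 r hr⟩, ?_, ?_⟩
  · refine Set.Finite.subset (Finset.finite_toSet (Finset.range n).powerset) ?_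
    rintro S ⟨⟨mm, -, hx, rfl⟩, -⟩
    rw [Finset.mem_coe, Finset.mem_powerset]
    intro x hxx
    exact Finset.mem_range.2 (hx x hxx)
  · intro S hS hS'
    obtain ⟨r, hr, T, hT, hc, h3, h4, h5⟩ := h2 S hS hS'
    exact ⟨r, hr, T, ⟨h3, h4, hc, h5⟩, hT⟩
  · rintro t rfl hσ
    exact H36.KR.heawood H37.KR.stT2J H86.KR.stD H91.KR.stE2 n t m L b β α hL (hyp_of h)
      (by omega) hσ

theorem torus_sum : SumOfProducts torus7 3 (fun _ : Fin 1 => 2) (fun _ => H36.KR.be)
    (fun _ => H36.KR.al) := by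
  have hc : ∀ j : Fin 1, Cocycle torus7 ((fun _ : Fin 1 => 2) j) ((fun _ => H36.KR.be) j) ∧
      Cocycle torus7 (3 + 1 - (fun _ : Fin 1 => 2) j) ((fun _ => H36.KR.al) j) :=
    fun _ => ⟨⟨H36.KR.be_card, H36.KR.be_cocycle⟩, ⟨H36.KR.al_card, H36.KR.al_cocycle⟩⟩
  refine ⟨fun _ => ⟨by norm_num, by norm_num⟩, hc, ?_⟩
  intro Z hZ
  rw [← pr2_eq (L := torus7) (d := 3) (b := fun _ : Fin 1 => 2) (fun _ => by norm_num) hc Z]
  have h := H36.KR.torus Z hZ.1 hZ.2.1 hZ.2.2
  refine h.trans ?_
  unfold H37.KR.pr2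
  refine sum_congr rfl fun σ _ => sum_congr rfl fun τ _ => ?_
  simp only [Fin.sum_univ_one]

theorem torus_exact (k : Type) [Field k] [Infinite k] (hk : CharZero k ∨ CharP k 2) :
    IsComplex torus7 ∧ (exceptional k torus7 3 2).ncard = 6 ∧
      Nat.choose 3 2 * factors 3 (fun _ : Fin 1 => 2) 2 = 6 := by
  have hL : IsComplex torus7 := H36.KR.isCx_T7
  have hf : factors 3 (fun _ : Fin 1 => 2) 2 = 2 := by
    unfold factors
    decide
  obtain ⟨h2, -⟩ := key k hk 3 7 (by norm_num) (by norm_num) torus7 hL 1 _ _ _ torus_sum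
  have h3 := (h2 2 (by norm_num)).2
  have h4 : Nat.choose (7 - 2 - 1) 2 ≤ (exceptional k torus7 3 2).ncard := by
    refine H67.KR.skel k inferInstance hk 7 3 2 (by omega) (by omega) (by omega) torus7 ?_
    intro σ hσ
    obtain ⟨τ, hτ1, hτ2⟩ := Finset.exists_superset_card_eq hσ (by
      rw [Fintype.card_fin]
      omega)
    exact hL.2 τ (H36.KR.edges_T7 τ hτ2) σ hτ1
  rw [hf] at h3
  have h5 : Nat.choose (7 - 2 - 1) 2 = 6 := by decide
  have h6 : Nat.choose 3 2 = 3 := by decide
  rw [h5] at h4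
  rw [h6] at h3
  refine ⟨hL, by omega, ?_⟩
  rw [hf, h6]

/-- **The Kalai-Sarkaria theorem with an intersection form**, over every infinite field of
characteristic `0` or `2`. -/
theorem result (k : Type) [Field k] [Infinite k] (hk : CharZero k ∨ CharP k 2) (d n : ℕ)
    (hd : 1 ≤ d) (hn : d + 1 ≤ n) (L : Finset (Finset (Fin n))) (hL : IsComplex L) :
    -- (1) obstruction a sum of products of cocycles: few exceptional faces
    (∀ (m : ℕ) (b : Fin m → ℕ) (β α : Fin m → Finset (Fin n) → ZMod 2),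
      SumOfProducts L d b β α →
        (∀ r, d < 2 * r → (exceptional k L d r).Finite ∧
          (exceptional k L d r).ncard ≤ Nat.choose d r * factors d b r) ∧
        (∀ S ∈ shift k L, S ∉ shift k (cyclicBoundary n d) →
          ∃ r, d < 2 * r ∧ ∃ S' ∈ exceptional k L d r, S' ⊆ S) ∧
        ∀ t, d = 2 * t + 1 → (∀ σ : Finset (Fin n), σ.card = t + 1 → σ ∈ L) →
          Nat.choose (n - t - 2) (t + 1) ≤ Nat.choose (2 * t + 1) (t + 1) * factors d b (t + 1)) ∧
    -- (2) complexes which (almost) embed in the sphere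
    (EmbedsInSphere L d → AlmostEmbeds L d) ∧
    (AlmostEmbeds L d → ∀ (b : Fin 0 → ℕ) (β α : Fin 0 → Finset (Fin n) → ZMod 2),
      SumOfProducts L d b β α) ∧
    (AlmostEmbeds L d → shift k L ⊆ shift k (cyclicBoundary n d)) ∧
    -- (3) subcomplexes of closed manifolds of dimension `d - 1` which almost embed in `S^d`
    (∀ (N : ℕ) (K : Finset (Finset (Fin N))) (f : Fin n ↪ Fin N), IsHomologyManifold K d →
      AlmostEmbeds K (d + 1) → (∀ σ ∈ L, σ.map f ∈ K) →
      (∃ (m : ℕ) (b : Fin m → ℕ) (β α : Fin m → Finset (Fin n) → ZMod 2),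
        SumOfProducts L d b β α ∧
          ∀ r, d < 2 * r → factors d b r ≤ min (betti K r) (betti K (d + 1 - r))) ∧
      ∀ r, d < 2 * r → (exceptional k L d r).ncard ≤
        Nat.choose d r * min (betti K r) (betti K (d + 1 - r))) ∧
    -- (4) the bound in (1) is attained: the torus with seven vertices
    (IsComplex torus7 ∧
      (∃ β α : Fin 1 → Finset (Fin 7) → ZMod 2, SumOfProducts torus7 3 (fun _ => 2) β α) ∧
      (exceptional k torus7 3 2).ncard = Nat.choose 3 2 * factors 3 (fun _ : Fin 1 => 2) 2 ∧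
      (exceptional k torus7 3 2).ncard = 6) := by
  have key := key k hk d n hd hn L hL
  refine ⟨key, almost_of, fun h b β α => zero_of_almost hL h b β α, fun h S hS => ?_,
    fun N K f hK hE hf => ?_, (torus_exact k hk).1, ⟨_, _, torus_sum⟩,
    (torus_exact k hk).2.1.trans (torus_exact k hk).2.2.symm, (torus_exact k hk).2.1⟩
  case refine_2 =>
    obtain ⟨m, b, β, α, h1, h2⟩ := manifold_case f hK hE hf
    exact ⟨⟨m, b, β, α, h1, h2⟩, fun r hr =>
      (((key m b β α h1).1 r hr).2).trans (Nat.mul_le_mul_left _ (h2 r hr))⟩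
  by_contra hS'
  obtain ⟨h1, h2, -⟩ := key 0 (fun j => j.elim0) (fun j => j.elim0) (fun j => j.elim0)
    (zero_of_almost hL h _ _ _)
  obtain ⟨r, hr, T, hT, -⟩ := h2 S hS hS'
  obtain ⟨hf, hc⟩ := h1 r hr
  have h0 : factors d (fun j : Fin 0 => (j.elim0 : ℕ)) r = 0 := by
    unfold factors
    simp
  rw [h0, mul_zero, Nat.le_zero, Set.ncard_eq_zero hf] at hc
  rw [hc] at hT
  exact hT

end Pool.Agent.Results.MP_dd083e_co.IntersectionForm
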