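import Pool.Agent.H67.KR.Avoid
import Pool.Agent.H67.KR.FVec
import Pool.Agent.H67.KR.Sharp
import Pool.Graph.R_seed8.Y131.KS.Alm

/-!
# Symmetric shifting in the middle dimension and van Kampen obstructions given by a form

Let `L` be a simplicial complex with vertices `0, ..., n-1` and `2 ≤ q`. The mod `2` van Kampen
obstruction of `L` to (almost) embeddings in `S^(2q-2)` is evaluated on the symmetric cycles of pairs
of disjoint faces with `q` vertices. Assume that there it is given by a symmetric bilinear form on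
`(ℤ/2)^b`, of any rank and type, and any vectors `ψ σ`. (For embeddings in `(q-2)`-connected closed
manifolds of dimension `2q-2` this is the intersection form and `b` is the middle Betti number, by
Patak and Tancer; this is not treated here.) Then at most `binomial (2q-1) q * b` of the faces of size
`q` of the symmetric shifting `L^s` avoid the last `q+1` vertices. For the numbers `f_i` of faces of
`L` with `i` vertices we obtain `f_q ≤ (q+1) f_(q-1) + binomial (2q-1) q * b` and
`f_q ≤ binomial n q - binomial (n-q-1) q + binomial (2q-1) q * b` (for `q = 2` this is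
`f_2 ≤ 3n - 6 + 3b`, as for graphs on surfaces); if all sets with `q` elements are
faces of `L` this is the inequality of Heawood and Kuehnel. The bounds, except the one with `f_(q-1)`,
are attained for the complexes of all sets with at most `q` elements on `6` and `7` vertices (`q = 2`,
`b = 1, 2`: projective plane and torus) and on `9` vertices (`q = 3`, `b = 1`: complex projective
plane). For complexes which almost embed in the sphere `b = 0` works.

The vertex `i` of the problem is our vertex `i - 1`, everywhere.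
-/

set_option autoImplicit false

namespace Pool.Agent.Results.MP_dd083e_co.MiddleDimension

open Finset MvPolynomial

/-- simplicial complex with vertices among `0, ..., n-1`: a family of finsets containing the
empty set and closed under taking subsets -/
def IsComplex {n : ℕ} (L : Finset (Finset (Fin n))) : Prop :=
  ∅ ∈ L ∧ ∀ σ ∈ L, ∀ τ : Finset (Fin n), τ ⊆ σ → τ ∈ L

/-- the geometric realization, in barycentric coordinates -/
def realization {n : ℕ} (L : Finset (Finset (Fin n))) : Set (Fin n → ℝ) :=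
  {x | (∀ i, 0 ≤ x i) ∧ ∑ i, x i = 1 ∧ ∃ σ ∈ L, ∀ i, i ∉ σ → x i = 0}

/-- topologically embeddable in the sphere `S^(d-1)`, the unit sphere of `ℝ^d` -/
def EmbedsInSphere {n : ℕ} (L : Finset (Finset (Fin n))) (d : ℕ) : Prop :=
  ∃ f : realization L → Metric.sphere (0 : EuclideanSpace ℝ (Fin d)) 1, Topology.IsEmbedding f

/-- the Stanley-Reisner ideal, generated by the squarefree monomials of the non-faces -/
noncomputable def srIdeal {n : ℕ} (k : Type*) [Field k] (L : Finset (Finset (Fin n))) :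
    Ideal (MvPolynomial (Fin n) k) :=
  Ideal.span {p | ∃ σ : Finset (Fin n), σ ∉ L ∧ p = ∏ v ∈ σ, X v}

/-- degree reverse lexicographic order with `x_0 > x_1 > ...`: `RevLT m m'` means `m < m'` -/
def RevLT {n : ℕ} (m m' : Fin n →₀ ℕ) : Prop :=
  m.degree < m'.degree ∨ (m.degree = m'.degree ∧ ∃ j, m' j < m j ∧ ∀ i, j < i → m i = m' i)

/-- the monomials of the initial ideal of the ideal `J`: the leading monomials of its elements -/
def inSet {n : ℕ} {k : Type*} [Field k] (J : Ideal (MvPolynomial (Fin n) k)) :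
    Set (Fin n →₀ ℕ) :=
  {m | ∃ f ∈ J, coeff m f ≠ 0 ∧ ∀ m' ∈ f.support, m' ≠ m → RevLT m' m}

/-- the linear substitution `x_i ↦ ∑_j g_ij x_j` -/
noncomputable def linSubst {n : ℕ} {k : Type*} [Field k] (g : Fin n × Fin n → k) :
    MvPolynomial (Fin n) k →ₐ[k] MvPolynomial (Fin n) k :=
  aeval (fun i => ∑ v, C (g (i, v)) * X v)

/-- the ideal `I` written in the coordinates `y_i = ∑_j g_ij x_j`: all `f` with `f(y) ∈ I`. For
invertible `g` it is the image of `I` under the substitution with the inverse matrix -/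
noncomputable def coordIdeal {n : ℕ} {k : Type*} [Field k] (g : Fin n × Fin n → k)
    (I : Ideal (MvPolynomial (Fin n) k)) : Ideal (MvPolynomial (Fin n) k) :=
  I.comap (linSubst g)

/-- the monomials of the generic initial ideal: those in the initial ideal of `I` written in the
coordinates given by `g`, for all invertible `g` outside some proper hypersurface -/
def ginSet {n : ℕ} {k : Type*} [Field k] (I : Ideal (MvPolynomial (Fin n) k)) :
    Set (Fin n →₀ ℕ) :=
  {m | ∃ F : MvPolynomial (Fin n × Fin n) k, F ≠ 0 ∧ ∀ g : Fin n × Fin n → k,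
    (Matrix.of (fun i j => g (i, j))).det ≠ 0 → eval g F ≠ 0 → m ∈ inSet (coordIdeal g I)}

/-- the list of the indices of the variables of `m`, with multiplicity, in increasing order -/
noncomputable def idxList {n : ℕ} (m : Fin n →₀ ℕ) : List ℕ :=
  (Multiset.map (fun i : Fin n => (i : ℕ)) (Finsupp.toMultiset m)).sort (· ≤ ·)

/-- `φ(m)`: the `i`-th index (counted from `0`, in increasing order) is increased by `i` -/
noncomputable def phi {n : ℕ} (m : Fin n →₀ ℕ) : Finset ℕ :=
  univ.image (fun i : Fin (idxList m).length => (idxList m).get i + (i : ℕ))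

/-- the symmetric algebraic shifting `K^s` of `K` over `k` (vertices `0, ..., n-1`) -/
def shift {n : ℕ} (k : Type*) [Field k] (K : Finset (Finset (Fin n))) : Set (Finset ℕ) :=
  {S | ∃ m : Fin n →₀ ℕ, m ∉ ginSet (srIdeal k K) ∧ (∀ x ∈ phi m, x < n) ∧ S = phi m}

/-! ### the obstruction -/

/-- elements of `U` of even rank (the smallest element has rank `0`) -/
def evens {n : ℕ} (U : Finset (Fin n)) : Finset (Fin n) :=
  U.filter (fun u => Even (U.filter (fun w => w < u)).card)

/-- elements of `U` of odd rank -/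
def odds {n : ℕ} (U : Finset (Fin n)) : Finset (Fin n) :=
  U.filter (fun u => ¬ Even (U.filter (fun w => w < u)).card)

/-- `L` almost embeds in `S^(d-1)`: there is a continuous map such that points of disjoint faces
have different images -/
def AlmostEmbeds {n : ℕ} (L : Finset (Finset (Fin n))) (d : ℕ) : Prop :=
  ∃ f : realization L → Metric.sphere (0 : EuclideanSpace ℝ (Fin d)) 1, Continuous f ∧
    ∀ x y : realization L, (∀ i, (x : Fin n → ℝ) i = 0 ∨ (y : Fin n → ℝ) i = 0) → f x ≠ f y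

/-- symmetric cycles of the deleted product of `L` on the pairs of disjoint faces with `q` vertices:
chains modulo `2`, symmetric under the exchange of `σ` and `τ`, with boundary zero -/
def MiddleCycle {n : ℕ} (L : Finset (Finset (Fin n))) (q : ℕ)
    (Z : Finset (Fin n) → Finset (Fin n) → ZMod 2) : Prop :=
  (∀ σ τ, Z σ τ = Z τ σ) ∧
    (∀ σ τ, Z σ τ ≠ 0 → σ ∈ L ∧ τ ∈ L ∧ σ.card = q ∧ τ.card = q ∧ Disjoint σ τ) ∧
    ∀ ρ τ : Finset (Fin n), ρ.card + 1 = q → τ.card = q → Disjoint ρ τ →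
      ∑ v ∈ (ρ ∪ τ)ᶜ, Z (insert v ρ) τ = 0

open Classical in
/-- On these cycles the (van Kampen) obstruction is given by the symmetric bilinear form `Ω` on
`(ℤ/2)^b` and the vectors `ψ σ`, `σ` a set with `q` elements: it is the sum of
`Ω(ψ σ, ψ τ) Z(σ, τ)` over the unordered pairs `σ, τ` (the smallest vertex is in `σ`) -/
def GivenByForm {n : ℕ} (L : Finset (Finset (Fin n))) (q : ℕ) {b : ℕ}
    (Ω : Fin b → Fin b → ZMod 2) (ψ : Finset (Fin n) → Fin b → ZMod 2) : Prop :=
  (∀ i j, Ω i j = Ω j i) ∧ ∀ Z, MiddleCycle L q Z →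
    ∑ U ∈ powersetCard (2 * q) univ, Z (evens U) (odds U) =
      ∑ σ, ∑ τ, if ∃ v ∈ σ, ∀ w ∈ σ ∪ τ, v ≤ w then
        (∑ i, ∑ j, Ω i j * ψ σ i * ψ τ j) * Z σ τ else 0

/-- the number of faces with `r` vertices -/
def faces {n : ℕ} (L : Finset (Finset (Fin n))) (r : ℕ) : ℕ := (L.filter (fun σ => σ.card = r)).card

/-- the faces with `q` vertices of the symmetric shifting of `L` over `k` which avoid the last `q + 1`
vertices -/
def avoiding {n : ℕ} (k : Type*) [Field k] (L : Finset (Finset (Fin n))) (q : ℕ) :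
    Set (Finset ℕ) :=
  {S | S ∈ shift k L ∧ S.card = q ∧ ∀ x ∈ S, x + q + 1 < n}

/-- the complex of all sets with at most `q` elements -/
def skeleton (n q : ℕ) : Finset (Finset (Fin n)) := univ.filter (fun σ => σ.card ≤ q)

theorem almost_of {n : ℕ} {L : Finset (Finset (Fin n))} {d : ℕ} (h : EmbedsInSphere L d) :
    AlmostEmbeds L d := by
  obtain ⟨f, hf⟩ := h
  refine ⟨f, hf.continuous, ?_⟩
  intro x y hxy hfe
  have e := hf.injective hfe
  subst e
  have h0 : ∀ i, (x : Fin n → ℝ) i = 0 := fun i => (hxy i).elim id id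
  have h1 := x.2.2.1
  rw [sum_eq_zero (fun i _ => h0 i)] at h1
  exact zero_ne_one h1

theorem zero_of_almost {n : ℕ} {L : Finset (Finset (Fin n))} {q : ℕ} (hq : 1 ≤ q)
    (hL : IsComplex L) (h : AlmostEmbeds L (2 * q - 1)) (Ω : Fin 0 → Fin 0 → ZMod 2)
    (ψ : Finset (Fin n) → Fin 0 → ZMod 2) : GivenByForm L q Ω ψ := by
  classical
  obtain ⟨f, hf, hi⟩ := h
  have ho := Y131.KS.odd_of_coneEmb (L := L) (d := 2 * q - 1) hL (Y131.KS.cone_of_almost L
      (fun x => if hx : x ∈ realization L then (f ⟨x, hx⟩ : EuclideanSpace ℝ (Fin (2 * q - 1))) else 0)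
      (by
        rw [continuousOn_iff_continuous_domRestrict]
        have h0 : Continuous (fun x : realization L => (f x : EuclideanSpace ℝ (Fin (2 * q - 1)))) :=
          continuous_subtype_val.comp hf
        refine h0.congr ?_
        intro x
        have hx : (x : Fin n → ℝ) ∈ realization L := x.2
        show (f x : EuclideanSpace ℝ (Fin (2 * q - 1))) = if hx : (x : Fin n → ℝ) ∈ realization L then
          (f ⟨(x : Fin n → ℝ), hx⟩ : EuclideanSpace ℝ (Fin (2 * q - 1))) else 0
        rw [dif_pos hx])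
      (by
        intro x hx
        have hx' : x ∈ realization L := hx
        rw [dif_pos hx']
        exact mem_sphere_zero_iff_norm.1 (f ⟨x, hx'⟩).2)
      (by
        intro x hx y hy hxy he
        have hx' : x ∈ realization L := hx
        have hy' : y ∈ realization L := hy
        rw [dif_pos hx', dif_pos hy'] at he
        exact hi ⟨x, hx'⟩ ⟨y, hy'⟩ hxy (Subtype.ext he)))
  have hV := Y131.KS.vk2_of_odd (L := L) (d := 2 * q - 1) hL ho
  refine ⟨fun i => i.elim0, ?_⟩
  intro Z hZ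
  have h0 : ∀ σ τ : Finset (Fin n), σ.card ≠ q ∨ τ.card ≠ q → Z σ τ = 0 := by
    intro σ τ h
    by_contra hne
    have := hZ.2.1 σ τ hne
    omega
  have h1 : ∑ U ∈ powersetCard (2 * q - 1 + 1) univ, Z (evens U) (odds U) = 0 := by
    refine hV Z hZ.1 (fun σ τ h => ⟨(hZ.2.1 σ τ h).1, (hZ.2.1 σ τ h).2.1⟩) ?_
    intro ρ τ hd hc
    rw [sum_add_distrib]
    have e1 : ∑ v ∈ (ρ ∪ τ)ᶜ, Z (insert v ρ) τ = 0 := by
      by_cases h1 : ρ.card + 1 = q
      · exact hZ.2.2 ρ τ h1 (by omega) hd
      · refine sum_eq_zero fun v hv => h0 _ _ (Or.inl ?_)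
        rw [mem_compl, mem_union, not_or] at hv
        rw [card_insert_of_notMem hv.1]
        exact h1
    have e2 : ∑ v ∈ (ρ ∪ τ)ᶜ, Z ρ (insert v τ) = 0 := by
      by_cases h1 : τ.card + 1 = q
      · have := hZ.2.2 τ ρ h1 (by omega) hd.symm
        rw [union_comm] at this
        rw [← this]
        exact sum_congr rfl fun v _ => hZ.1 _ _
      · refine sum_eq_zero fun v hv => h0 _ _ (Or.inr ?_)
        rw [mem_compl, mem_union, not_or] at hv
        rw [card_insert_of_notMem hv.2]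
        exact h1
    rw [e1, e2, add_zero]
  rw [show 2 * q - 1 + 1 = 2 * q by omega] at h1
  rw [h1]
  symm
  refine sum_eq_zero fun σ _ => sum_eq_zero fun τ _ => ?_
  split_ifs
  · rw [Fin.sum_univ_zero, zero_mul]
  · rfl

theorem form_of {n : ℕ} {L : Finset (Finset (Fin n))} {q b : ℕ} {Ω : Fin b → Fin b → ZMod 2}
    {ψ : Finset (Fin n) → Fin b → ZMod 2} (h : GivenByForm L q Ω ψ) :
    H67.KS.IsForm L q Ω (fun i σ => ψ σ i) := by
  classical
  refine ⟨h.1, ?_⟩
  intro Z hZ
  refine (h.2 Z hZ).trans ?_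
  have e : ∀ σ τ : Finset (Fin n), (if ∃ v ∈ σ, ∀ w ∈ σ ∪ τ, v ≤ w then
        (∑ i, ∑ j, Ω i j * ψ σ i * ψ τ j) * Z σ τ else 0) =
      ∑ i, ∑ j, if Y131.KS.mn σ τ then Ω i j * ψ σ i * ψ τ j * Z σ τ else 0 := by
    intro σ τ
    by_cases hc : ∃ v ∈ σ, ∀ w ∈ σ ∪ τ, v ≤ w
    · have hc' : Y131.KS.mn σ τ := hc
      rw [if_pos hc, sum_mul]
      refine sum_congr rfl fun i _ => ?_
      rw [sum_mul]
      refine sum_congr rfl fun j _ => ?_
      rw [if_pos hc']
    · have hc' : ¬ Y131.KS.mn σ τ := hc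
      rw [if_neg hc]
      symm
      refine sum_eq_zero fun i _ => sum_eq_zero fun j _ => ?_
      rw [if_neg hc']
  rw [sum_congr rfl fun σ _ => sum_congr rfl fun τ _ => e σ τ,
    ← Fintype.sum_prod_type' (f := fun (σ τ : Finset (Fin n)) =>
      ∑ i, ∑ j, if Y131.KS.mn σ τ then Ω i j * ψ σ i * ψ τ j * Z σ τ else 0), sum_comm]
  refine sum_congr rfl fun i _ => ?_
  rw [sum_comm]

open Classical in
theorem given_of {n : ℕ} {L : Finset (Finset (Fin n))} {q b : ℕ} {Ω : Fin b → Fin b → ZMod 2}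
    {ψ : Finset (Fin n) → Fin b → ZMod 2} (hs : ∀ i j, Ω i j = Ω j i)
    (h : ∀ Z : Finset (Fin n) → Finset (Fin n) → ZMod 2, H67.KS.MidCyc L q Z →
      ∑ U ∈ powersetCard (2 * q) univ, Z (W555.KS.evenPart U) (W555.KS.oddPart U) =
        ∑ σ, ∑ τ, if Y131.KS.mn σ τ then (∑ i, ∑ j, Ω i j * ψ σ i * ψ τ j) * Z σ τ else 0) :
    GivenByForm L q Ω ψ := by
  refine ⟨hs, fun Z hZ => (h Z hZ).trans ?_⟩
  refine sum_congr rfl fun σ _ => sum_congr rfl fun τ _ => ?_
  by_cases hc : Y131.KS.mn σ τ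
  · have hc' : ∃ v ∈ σ, ∀ w ∈ σ ∪ τ, v ≤ w := hc
    rw [if_pos hc, if_pos hc']
  · have hc' : ¬ ∃ v ∈ σ, ∀ w ∈ σ ∪ τ, v ≤ w := hc
    rw [if_neg hc, if_neg hc']

theorem sharp (n q b : ℕ)
    (h : (n, q, b) = (6, 2, 1) ∨ (n, q, b) = (7, 2, 2) ∨ (n, q, b) = (9, 3, 1)) :
    (∃ (Ω : Fin b → Fin b → ZMod 2) (ψ : Finset (Fin n) → Fin b → ZMod 2),
      GivenByForm (skeleton n q) q Ω ψ) ∧
    Nat.choose (n - q - 1) q = Nat.choose (2 * q - 1) q * b ∧ 2 ≤ q ∧ 2 * q ≤ n := by
  rcases h with h | h | h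
  · simp only [Prod.mk.injEq] at h
    obtain ⟨rfl, rfl, rfl⟩ := h
    obtain ⟨ψ, hψ⟩ := H67.KR.sharp6 (skeleton 6 2)
    exact ⟨⟨_, ψ, given_of (fun _ _ => rfl) hψ⟩, rfl, by omega, by omega⟩
  · simp only [Prod.mk.injEq] at h
    obtain ⟨rfl, rfl, rfl⟩ := h
    obtain ⟨ψ, hψ⟩ := H67.KR.sharp7 (skeleton 7 2)
    exact ⟨⟨_, ψ, given_of (fun i j => by simp only [eq_comm]) hψ⟩, rfl, by omega, by omega⟩
  · simp only [Prod.mk.injEq] at h
    obtain ⟨rfl, rfl, rfl⟩ := h
    obtain ⟨ψ, hψ⟩ := H67.KR.sharp9 (skeleton 9 3)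
    exact ⟨⟨_, ψ, given_of (fun _ _ => rfl) hψ⟩, rfl, by omega, by omega⟩

theorem faces_skeleton (n q : ℕ) : faces (skeleton n q) q = Nat.choose n q := by
  unfold faces skeleton
  have h : (univ.filter (fun σ : Finset (Fin n) => σ.card ≤ q)).filter (fun σ => σ.card = q) =
      powersetCard q univ := by
    ext σ
    rw [mem_filter, mem_filter, mem_powersetCard]
    constructor
    · rintro ⟨-, h⟩
      exact ⟨subset_univ _, h⟩
    · rintro ⟨-, h⟩
      exact ⟨⟨mem_univ _, h.le⟩, h⟩
  rw [h, card_powersetCard, card_univ, Fintype.card_fin]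

theorem bounds (k : Type) [Field k] [Infinite k] (hk : CharZero k ∨ CharP k 2) (q n : ℕ)
    (hq : 2 ≤ q) (hn : 2 * q ≤ n) (L : Finset (Finset (Fin n))) (b : ℕ)
    (Ω : Fin b → Fin b → ZMod 2) (ψ : Finset (Fin n) → Fin b → ZMod 2)
    (h : GivenByForm L q Ω ψ) :
    (avoiding k L q).Finite ∧ (avoiding k L q).ncard ≤ Nat.choose (2 * q - 1) q * b :=
  H67.KR.midA k inferInstance hk n q b hq hn L Ω (fun i σ => ψ σ i) (form_of h)

/-- **The middle dimension**, over every infinite field of characteristic `0` or `2`. -/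
theorem result (k : Type) [Field k] [Infinite k] (hk : CharZero k ∨ CharP k 2) (q n : ℕ)
    (hq : 2 ≤ q) (hn : 2 * q ≤ n) (L : Finset (Finset (Fin n))) (hL : IsComplex L) :
    -- the bounds
    (∀ (b : ℕ) (Ω : Fin b → Fin b → ZMod 2) (ψ : Finset (Fin n) → Fin b → ZMod 2),
      GivenByForm L q Ω ψ →
        (avoiding k L q).Finite ∧ (avoiding k L q).ncard ≤ Nat.choose (2 * q - 1) q * b ∧
        faces L q ≤ (q + 1) * faces L (q - 1) + Nat.choose (2 * q - 1) q * b ∧
        faces L q + Nat.choose (n - q - 1) q ≤ Nat.choose n q + Nat.choose (2 * q - 1) q * b) ∧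
    -- spheres: `b = 0`
    (EmbedsInSphere L (2 * q - 1) → AlmostEmbeds L (2 * q - 1)) ∧
    (AlmostEmbeds L (2 * q - 1) → ∀ (Ω : Fin 0 → Fin 0 → ZMod 2)
      (ψ : Finset (Fin n) → Fin 0 → ZMod 2), GivenByForm L q Ω ψ) ∧
    -- the first and the third bound are attained: the sets with at most `q` elements on `6`, `7`,
    -- `9` vertices
    (∀ n' q b : ℕ, (n', q, b) = (6, 2, 1) ∨ (n', q, b) = (7, 2, 2) ∨ (n', q, b) = (9, 3, 1) →
      (∃ (Ω : Fin b → Fin b → ZMod 2) (ψ : Finset (Fin n') → Fin b → ZMod 2),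
        GivenByForm (skeleton n' q) q Ω ψ) ∧
      (avoiding k (skeleton n' q) q).ncard = Nat.choose (2 * q - 1) q * b ∧
      faces (skeleton n' q) q + Nat.choose (n' - q - 1) q =
        Nat.choose n' q + Nat.choose (2 * q - 1) q * b) := by
  refine ⟨fun b Ω ψ h => ?_, almost_of, fun h Ω ψ => zero_of_almost (by omega) hL h Ω ψ, ?_⟩
  · obtain ⟨h1, h2⟩ := bounds k hk q n hq hn L b Ω ψ h
    refine ⟨h1, h2, ?_, H67.KR.fvec2 n q b hq hn L hL Ω (fun i σ => ψ σ i) (form_of h)⟩
    have h3 := H67.KR.fvec n q b hq L hL Ω (fun i σ => ψ σ i) (form_of h)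
    have h4 : L.filter (fun σ => σ.card + 1 = q) = L.filter (fun σ => σ.card = q - 1) :=
      filter_congr fun σ _ => by omega
    rw [h4] at h3
    exact h3
  · intro n' q b h
    obtain ⟨⟨Ω, ψ, h1⟩, h2, h3, h4⟩ := sharp n' q b h
    refine ⟨⟨Ω, ψ, h1⟩, ?_, ?_⟩
    · refine le_antisymm (bounds k hk q n' h3 h4 _ b Ω ψ h1).2 ?_
      rw [← h2]
      exact H67.KR.skelA k inferInstance n' q (by omega) (skeleton n' q)
        (fun σ hσ => mem_filter.2 ⟨mem_univ _, hσ⟩)
    · rw [faces_skeleton, h2]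

end Pool.Agent.Results.MP_dd083e_co.MiddleDimension
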